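import Mathlib

/-!
# Rook domination on the triangular board: a lower bound

`board n` is the triangular board with `n` rows: the triples of natural numbers `(a, b, c)` with
`a + b + c = n - 1` (written `a + b + c + 1 = n`).  `gamma n` is the least number of rooks that
cover the board.  We show `gamma n ≥ 3 n / 7` for every `n`.
-/

namespace Pool.Agent.Results.MP_a338c1_co.LowerBound

/-- The cells of the triangular board with `n` rows: triples `(a, b, c)` of natural numbers with
`a + b + c = n - 1`. -/
def board (n : ℕ) : Finset (ℕ × ℕ × ℕ) :=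
  (Finset.range n ×ˢ Finset.range n ×ˢ Finset.range n).filter
    (fun p => p.1 + p.2.1 + p.2.2 + 1 = n)

/-- `S` is a set of rooks on the board with `n` rows, and every cell agrees in at least one of the
three coordinates with some rook of `S`. -/
def IsCovering (n : ℕ) (S : Finset (ℕ × ℕ × ℕ)) : Prop :=
  S ⊆ board n ∧
    ∀ p ∈ board n, ∃ q ∈ S, p.1 = q.1 ∨ p.2.1 = q.2.1 ∨ p.2.2 = q.2.2

/-- The domination number: the least size of a covering set of rooks. -/
noncomputable def gamma (n : ℕ) : ℕ :=
  sInf {k : ℕ | ∃ S : Finset (ℕ × ℕ × ℕ), IsCovering n S ∧ S.card = k}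

theorem mem_board {n : ℕ} {p : ℕ × ℕ × ℕ} : p ∈ board n ↔ p.1 + p.2.1 + p.2.2 + 1 = n := by
  simp only [board, Finset.mem_filter, Finset.mem_product, Finset.mem_range]
  constructor
  · rintro ⟨-, h⟩
    exact h
  · intro h
    exact ⟨⟨by omega, by omega, by omega⟩, h⟩

theorem board_covering (n : ℕ) : IsCovering n (board n) :=
  ⟨Finset.Subset.refl _, fun p hp => ⟨p, hp, Or.inl rfl⟩⟩

theorem exists_min (n : ℕ) : ∃ S : Finset (ℕ × ℕ × ℕ), IsCovering n S ∧ S.card = gamma n :=
  Nat.sInf_mem (s := {k : ℕ | ∃ S : Finset (ℕ × ℕ × ℕ), IsCovering n S ∧ S.card = k})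
    ⟨_, board n, board_covering n, rfl⟩

section Abstract

variable {ι : Type} (S : Finset ι)

/-- If the values `0, …, m - 1` of `f` are all attained on `S`, then at least `m` elements of `S`
have a value below `m`. -/
theorem low_card (f : ι → ℕ) (m : ℕ) (hf : ∀ x < m, ∃ q ∈ S, f q = x) :
    m ≤ (S.filter fun q => f q < m).card := by
  classical
  have h : Finset.range m ⊆ (S.filter fun q => f q < m).image f := by
    intro x hx
    rw [Finset.mem_range] at hx
    obtain ⟨q, hq, hqx⟩ := hf x hx
    exact Finset.mem_image.2 ⟨q, Finset.mem_filter.2 ⟨hq, by omega⟩, hqx⟩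
  have h1 := Finset.card_le_card h
  rw [Finset.card_range] at h1
  exact le_trans h1 Finset.card_image_le

/-- The pair inequality. -/
theorem pair_card (g h : ι → ℕ) (L β γ : ℕ) (hβ : ∀ y < β, ∃ q ∈ S, g q = y)
    (hγ : ∀ z < γ, ∃ q ∈ S, h q = z) (hs : β + γ ≤ L)
    (hc : ∀ y z, y + z = L → ∃ q ∈ S, g q = y ∨ h q = z) :
    L + 1 ≤ (S.filter fun q => g q ≤ L - γ).card + (S.filter fun q => h q ≤ L - β).card := by
  classical
  have hsub : Finset.range (L + 1) ⊆ (S.filter fun q => g q ≤ L - γ).image g ∪
      (S.filter fun q => h q ≤ L - β).image (fun q => L - h q) := by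
    intro y hy
    rw [Finset.mem_range] at hy
    have key : (∃ q ∈ S, g q = y ∧ y ≤ L - γ) ∨ (∃ q ∈ S, h q = L - y ∧ L - y ≤ L - β) := by
      by_cases h1 : y < β
      · obtain ⟨q, hq, hqy⟩ := hβ y h1
        exact Or.inl ⟨q, hq, hqy, by omega⟩
      by_cases h2 : L - γ < y
      · obtain ⟨q, hq, hqy⟩ := hγ (L - y) (by omega)
        exact Or.inr ⟨q, hq, hqy, by omega⟩
      obtain ⟨q, hq, hqy | hqz⟩ := hc y (L - y) (by omega)
      · exact Or.inl ⟨q, hq, hqy, by omega⟩
      · exact Or.inr ⟨q, hq, hqz, by omega⟩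
    rw [Finset.mem_union, Finset.mem_image, Finset.mem_image]
    rcases key with ⟨q, hq, h1, h2⟩ | ⟨q, hq, h1, h2⟩
    · exact Or.inl ⟨q, Finset.mem_filter.2 ⟨hq, by omega⟩, h1⟩
    · exact Or.inr ⟨q, Finset.mem_filter.2 ⟨hq, by omega⟩, by omega⟩
  have h1 := Finset.card_le_card hsub
  rw [Finset.card_range] at h1
  refine le_trans h1 (le_trans (Finset.card_union_le _ _) ?_)
  exact Nat.add_le_add Finset.card_image_le Finset.card_image_le

theorem exists_least_missing (f : ι → ℕ) :
    ∃ α : ℕ, (∀ x < α, ∃ q ∈ S, f q = x) ∧ ∀ q ∈ S, f q ≠ α := by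
  classical
  have hex : ∃ x : ℕ, ∀ q ∈ S, f q ≠ x := by
    refine ⟨S.sup f + 1, fun q hq h => ?_⟩
    have := Finset.le_sup (f := f) hq
    omega
  refine ⟨Nat.find hex, fun x hx => ?_, Nat.find_spec hex⟩
  have := Nat.find_min hex hx
  push Not at this
  exact this

/-- The lower bound, in abstract form. -/
theorem abstract_bound (f g h : ι → ℕ) (N : ℕ) (hsum : ∀ q ∈ S, f q + g q + h q = N)
    (hcov : ∀ x y z, x + y + z = N → ∃ q ∈ S, x = f q ∨ y = g q ∨ z = h q) :
    3 * (N + 1) ≤ 7 * S.card := by
  classical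
  obtain ⟨α, hα, hα'⟩ := exists_least_missing S f
  obtain ⟨β, hβ, hβ'⟩ := exists_least_missing S g
  obtain ⟨γ, hγ, hγ'⟩ := exists_least_missing S h
  by_cases hs : α + β + γ ≤ N
  · -- the main case
    have p1 := pair_card S g h (N - α) β γ hβ hγ (by omega) (by
      intro y z hyz
      obtain ⟨q, hq, h1 | h1 | h1⟩ := hcov α y z (by omega)
      · exact absurd h1.symm (hα' q hq)
      · exact ⟨q, hq, Or.inl h1.symm⟩
      · exact ⟨q, hq, Or.inr h1.symm⟩)
    have p2 := pair_card S f h (N - β) α γ hα hγ (by omega) (by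
      intro x z hxz
      obtain ⟨q, hq, h1 | h1 | h1⟩ := hcov x β z (by omega)
      · exact ⟨q, hq, Or.inl h1.symm⟩
      · exact absurd h1.symm (hβ' q hq)
      · exact ⟨q, hq, Or.inr h1.symm⟩)
    have p3 := pair_card S f g (N - γ) α β hα hβ (by omega) (by
      intro x y hxy
      obtain ⟨q, hq, h1 | h1 | h1⟩ := hcov x y γ (by omega)
      · exact ⟨q, hq, Or.inl h1.symm⟩
      · exact ⟨q, hq, Or.inr h1.symm⟩
      · exact absurd h1.symm (hγ' q hq))
    have l1 := low_card S f α hα
    have l2 := low_card S g β hβ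
    have l3 := low_card S h γ hγ
    have e1 : N - γ - β = N - β - γ := by omega
    have e2 : N - γ - α = N - α - γ := by omega
    have e3 : N - β - α = N - α - β := by omega
    rw [e1, e2] at p3
    rw [e3] at p2
    have c1 := Finset.card_filter_add_card_filter_not (s := S) (fun q => f q ≤ N - β - γ)
    have c2 := Finset.card_filter_add_card_filter_not (s := S) (fun q => g q ≤ N - α - γ)
    have c3 := Finset.card_filter_add_card_filter_not (s := S) (fun q => h q ≤ N - α - β)
    have key : (S.filter fun q => f q < α).card + (S.filter fun q => g q < β).card +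
        (S.filter fun q => h q < γ).card ≤ S.card + (S.filter fun q => ¬ f q ≤ N - β - γ).card +
          (S.filter fun q => ¬ g q ≤ N - α - γ).card +
          (S.filter fun q => ¬ h q ≤ N - α - β).card := by
      rw [Finset.card_eq_sum_ones S]
      simp only [Finset.card_filter]
      rw [← Finset.sum_add_distrib, ← Finset.sum_add_distrib, ← Finset.sum_add_distrib,
        ← Finset.sum_add_distrib, ← Finset.sum_add_distrib]
      refine Finset.sum_le_sum fun q hq => ?_
      have := hsum q hq
      split_ifs <;> omega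
    omega
  · -- the easy case
    obtain ⟨α', β', γ', h1, h2, h3, h4⟩ : ∃ α' β' γ' : ℕ, α' ≤ α ∧ β' ≤ β ∧ γ' ≤ γ ∧
        α' + β' + γ' = N + 1 := by
      by_cases i1 : N + 1 ≤ α
      · exact ⟨N + 1, 0, 0, i1, by omega, by omega, by omega⟩
      by_cases i2 : N + 1 ≤ α + β
      · exact ⟨α, N + 1 - α, 0, le_refl _, by omega, by omega, by omega⟩
      · exact ⟨α, β, N + 1 - α - β, le_refl _, le_refl _, by omega, by omega⟩
    have l1 := low_card S f α' (fun x hx => hα x (by omega))
    have l2 := low_card S g β' (fun x hx => hβ x (by omega))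
    have l3 := low_card S h γ' (fun x hx => hγ x (by omega))
    have key : (S.filter fun q => f q < α').card + (S.filter fun q => g q < β').card +
        (S.filter fun q => h q < γ').card ≤ S.card + S.card := by
      rw [Finset.card_eq_sum_ones S]
      simp only [Finset.card_filter]
      rw [← Finset.sum_add_distrib, ← Finset.sum_add_distrib, ← Finset.sum_add_distrib]
      refine Finset.sum_le_sum fun q hq => ?_
      have := hsum q hq
      split_ifs <;> omega
    omega

end Abstract

/-- **Lower bound.** Every covering of the triangular board with `n` rows uses at least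
`3 n / 7` rooks. -/
theorem result : ∀ n : ℕ, 3 * n ≤ 7 * gamma n := by
  intro n
  obtain ⟨S, ⟨hS1, hS2⟩, hc⟩ := exists_min n
  rw [← hc]
  rcases Nat.eq_zero_or_pos n with h0 | h0
  · omega
  have h := abstract_bound S (fun q => q.1) (fun q => q.2.1) (fun q => q.2.2) (n - 1)
    (fun q hq => by
      have := mem_board.1 (hS1 hq)
      omega)
    (fun x y z hxyz => by
      obtain ⟨q, hq, h1⟩ := hS2 (x, y, z) (mem_board.2 (by simp only; omega))
      exact ⟨q, hq, h1⟩)
  omega

end Pool.Agent.Results.MP_a338c1_co.LowerBound
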